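import Pool.Agent.H53.GC.Defs
import Pool.Agent.H58.SF.Targets

/-!
# Targets
-/

set_option autoImplicit false

namespace Pool.Agent.H53.GC

open Pool.Agent.H68.BP Pool.Agent.H58.SF
open Classical

/-! ### Families -/

section families

variable {𝓔 X 𝓛 : Type}

/-- The family `F` of functions preserves the relations `R l`. -/
def Fam (R : 𝓛 → (𝓔 → X) → Prop) (I : Type) (F : 𝓔 → (I → X) → X) : Prop :=
  ∀ (l : 𝓛) (p : I → 𝓔 → X), (∀ i, R l (p i)) → R l (fun e => F e (fun i => p i e))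

/-- The unary case. -/
def Fam1 (R : 𝓛 → (𝓔 → X) → Prop) (φ : 𝓔 → X → X) : Prop :=
  ∀ (l : 𝓛) (p : 𝓔 → X), R l p → R l (fun e => φ e (p e))

/-- `Z` selects coordinates of the families, compatibly with minors. -/
def Selects (R : 𝓛 → (𝓔 → X) → Prop) (Z : (I : Type) → (𝓔 → (I → X) → X) → I → Prop) : Prop :=
  (∀ (I : Type) [Finite I] (F : 𝓔 → (I → X) → X), Fam R I F → ∃ i, Z I F i) ∧
  ∀ (I J : Type) [Finite I] [Finite J] (π : I → J) (F : 𝓔 → (I → X) → X) (i : I) (j : J),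
    Fam R I F → Z I F i → Z J (fun e x => F e (fun i => x (π i))) j → π i = j

/-- `ρ` is a retraction on a core. -/
structure CoreRet (R : 𝓛 → (𝓔 → X) → Prop) (ρ : 𝓔 → X → X) : Prop where
  fam : Fam1 R ρ
  idem : ∀ e x, ρ e (ρ e x) = ρ e x
  bij : ∀ φ, Fam1 R φ → ∀ e,
    Set.BijOn (fun x => ρ e (φ e x)) (Set.range (ρ e)) (Set.range (ρ e))

/-- idempotent families on the core -/
structure IFam (R : 𝓛 → (𝓔 → X) → Prop) (ρ : 𝓔 → X → X) (I : Type) (F : 𝓔 → (I → X) → X) :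
    Prop where
  fam : Fam R I F
  left : ∀ e w, ρ e (F e w) = F e w
  right : ∀ e w, F e (fun i => ρ e (w i)) = F e w
  idem : ∀ e t, F e (fun _ => t) = ρ e t

/-- The normalization of `f` with the retraction `r`. -/
noncomputable def nrm {X I : Type} (r : X → X) (f : (I → X) → X) : (I → X) → X :=
  fun w => (fun x => r (f (fun _ => r x)))^[(Nat.card X).factorial - 1] (r (f (fun i => r (w i))))

/-- `ξ` is a homomorphism from the binary idempotent families to the projections. -/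
def Proj2 (R : 𝓛 → (𝓔 → X) → Prop) (ρ : 𝓔 → X → X) (ξ : (𝓔 → (Fin 2 → X) → X) → Fin 2) : Prop :=
  (∀ b : Fin 2, ξ (fun e w => ρ e (w b)) = b) ∧
  ∀ (n : ℕ) (Q : 𝓔 → (Fin n → X) → X), IFam R ρ (Fin n) Q → ∃ i : Fin n,
    ∀ F : Fin n → 𝓔 → (Fin 2 → X) → X, (∀ a, IFam R ρ (Fin 2) (F a)) →
      ξ (fun e w => Q e (fun a => F a e w)) = ξ (F i)

/-- The vertex sorts `vs v`, the sorts `St v` which contain the vertex `v`, and the type of the
vertex `v` in an element of the sort `e`. -/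
structure Geo (R : 𝓛 → (𝓔 → X) → Prop) {Vx : Type} (vs : Vx → 𝓔) (St : Vx → 𝓔 → Prop)
    (rd : Vx → 𝓔 → X → X) : Prop where
  vs_mem : ∀ v, St v (vs v)
  rd_vs : ∀ v x, rd v (vs v) x = x
  compat : ∀ (I : Type) (F : 𝓔 → (I → X) → X), Fam R I F → ∀ v e, St v e → ∀ w : I → X,
    rd v e (F e w) = F (vs v) (fun i => rd v e (w i))
  swV : ∀ (I : Type) (v : Vx) (F G : 𝓔 → (I → X) → X), Fam R I F → Fam R I G →
    (∀ e, ¬ St v e → F e = G e) → ∀ C : (I → X) → Prop,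
      Fam R I (fun e w => if C (fun i => rd v e (w i)) then F e w else G e w)
  swP : ∀ (I : Type) (e : 𝓔), (∀ v, e ≠ vs v) → ∀ F G : 𝓔 → (I → X) → X, Fam R I F → Fam R I G →
    (∀ e', e' ≠ e → F e' = G e') → ∀ C : (I → X) → Prop,
      Fam R I (fun e' w => if C w then F e' w else G e' w)

/-- mixed families at a vertex -/
def MixV (R : 𝓛 → (𝓔 → X) → Prop) {Vx : Type} (vs : Vx → 𝓔) (St : Vx → 𝓔 → Prop) : Prop :=
  ∀ v, ∃ (D : 𝓔 → (Fin 2 → X) → X) (H : 𝓔 → (Fin 6 → X) → X)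
    (G : Fin 3 → 𝓔 → (Fin 2 → X) → X), Fam R (Fin 2) D ∧ Fam R (Fin 6) H ∧
      (∀ r, Fam R (Fin 2) (G r)) ∧ (∀ r w, G r (vs v) w = D (vs v) w) ∧
      ∀ r e, ¬ St v e → ∀ w, G r e w = H e (pat r (w 0) (w 1))

/-- mixed families at two pairs -/
def MixP (R : 𝓛 → (𝓔 → X) → Prop) {Vx : Type} (vs : Vx → 𝓔) (St : Vx → 𝓔 → Prop)
    (rd : Vx → 𝓔 → X → X) : Prop :=
  ∀ e e', (∀ v, e ≠ vs v) → (∀ v, e' ≠ vs v) → e ≠ e' →
    ∃ (D : 𝓔 → (Fin 2 → X) → X) (H : 𝓔 → (Fin 6 → X) → X)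
      (G : Fin 3 → 𝓔 → (Fin 2 → X) → X), Fam R (Fin 2) D ∧ Fam R (Fin 6) H ∧
        (∀ r, Fam R (Fin 2) (G r)) ∧
        (∀ r w, (∀ v, St v e → rd v e (w 0) = rd v e (w 1)) → G r e w = D e w) ∧
        ∀ r w, (∀ v, St v e' → rd v e' (w 0) = rd v e' (w 1)) →
          G r e' w = H e' (pat r (w 0) (w 1))

end families

/-! ### Targets: algebra -/

/-- polymorphisms of the complete graph with three vertices -/
def T_K3L : Prop :=
  ∀ (I : Type) [Finite I] (g : (I → Fin 3) → Fin 3), (∀ x y, (∀ i, x i ≠ y i) → g x ≠ g y) →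
    ∃ (i : I) (u : Fin 3 → Fin 3), Function.Injective u ∧ ∀ x, g x = u (x i)

/-- structures which pp-construct `K₃`: selection of coordinates -/
def T_SEL : Prop :=
  ∀ (σ : Sig) (Y : Type) (𝕐 : Str σ Y), PPConstructsK3 𝕐 →
    ∃ Z : (I : Type) → ((I → Y) → Y) → I → Prop,
      (∀ (I : Type) [Finite I] (f : (I → Y) → Y), IsPoly 𝕐 𝕐 f → ∃ i, Z I f i) ∧
      ∀ (I J : Type) [Finite I] [Finite J] (π : I → J) (f : (I → Y) → Y) (i : I) (j : J),
        IsPoly 𝕐 𝕐 f → Z I f i → Z J (minor π f) j → π i = j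

/-- structures with an Olšák polymorphism -/
def T_OLS : Prop :=
  ∀ (σ : Sig) (Y : Type) (𝕐 : Str σ Y), HasOlsak 𝕐 𝕐 → ¬ PPConstructsK3 𝕐

/-- no selection: Olšák family -/
def T_OLF : Prop :=
  ∀ (𝓔 X 𝓛 : Type) [Finite 𝓔] [Finite X] [Nonempty X] [Finite 𝓛] (R : 𝓛 → (𝓔 → X) → Prop),
    (¬ ∃ Z, Selects R Z) → ∃ F : 𝓔 → (Fin 6 → X) → X, Fam R (Fin 6) F ∧
      ∀ e x y r, F e (pat r x y) = F e (pat 0 x y)

/-- core -/
def T_COR : Prop :=
  ∀ (𝓔 X 𝓛 : Type) [Finite 𝓔] [Finite X] (R : 𝓛 → (𝓔 → X) → Prop), ∃ ρ, CoreRet R ρ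

/-- normalization -/
def T_NRM : Prop :=
  ∀ (𝓔 X 𝓛 : Type) [Finite X] (R : 𝓛 → (𝓔 → X) → Prop) (ρ : 𝓔 → X → X), CoreRet R ρ →
    ∀ (I : Type) (F : 𝓔 → (I → X) → X), Fam R I F → IFam R ρ I (fun e => nrm (ρ e) (F e))

/-- the homomorphism to the projections -/
def T_OMG : Prop :=
  ∀ (𝓔 X 𝓛 : Type) [Finite 𝓔] [Finite X] (R : 𝓛 → (𝓔 → X) → Prop) (ρ : 𝓔 → X → X),
    CoreRet R ρ → (∃ Z, Selects R Z) → ∃ ξ, Proj2 R ρ ξ

/-- the contradiction -/
def T_FIN : Prop :=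
  ∀ (𝓔 X 𝓛 Vx : Type) [Finite 𝓔] [Finite X] [Finite Vx] (R : 𝓛 → (𝓔 → X) → Prop)
    (vs : Vx → 𝓔) (St : Vx → 𝓔 → Prop) (rd : Vx → 𝓔 → X → X) (ρ : 𝓔 → X → X)
    (ξ : (𝓔 → (Fin 2 → X) → X) → Fin 2),
    Geo R vs St rd → MixV R vs St → MixP R vs St rd → CoreRet R ρ → Proj2 R ρ ξ → False

/-! ### Families of patterns -/

section concrete

variable {V X : Type} {σ : Sig}

/-- The relations on patterns with `k` vertices. -/
def Rk (𝔸 : Str σ V) (M : ℕ) (c : V → V → X) (k : ℕ) :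
    (Σ s : Option (Fin σ.m), (Fin (arP σ M s) → Fin k)) → (Prs k → X) → Prop :=
  fun l p => Pat c (relP 𝔸 M l.1) l.2 p

/-- vertex sorts -/
def vsK {k : ℕ} (v : Fin k) : Prs k := ⟨(v, v), le_rfl⟩

/-- the sorts containing the vertex `v` -/
def StK {k : ℕ} (v : Fin k) (e : Prs k) : Prop := e.1.1 = v ∨ e.1.2 = v

/-- the type of the vertex `v` in the sort `e` -/
noncomputable def rdK (L Rt : X → X) {k : ℕ} (v : Fin k) (e : Prs k) (x : X) : X :=
  if e.1.1 = e.1.2 then x else if e.1.1 = v then L x else Rt x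

/-- A map from the sixth power of the set of pairs to `X` which preserves the relations and
satisfies the identities of an Olšák function. -/
structure GoodMap (𝔸 : Str σ V) (M : ℕ) (c : V → V → X)
    (h : (Fin 6 → V) → (Fin 6 → V) → X) : Prop where
  rel : ∀ (s : Option (Fin σ.m)) (k : ℕ) (τ : Fin (arP σ M s) → Fin k)
    (v : Fin (arP σ M s) → Fin 6 → V), (∀ l, relP 𝔸 M s (fun a => v a l)) →
    (∀ a b, τ a = τ b → v a = v b) →
    ∃ x, relP 𝔸 M s x ∧ (∀ a b, τ a = τ b → x a = x b) ∧ ∀ a b, c (x a) (x b) = h (v a) (v b)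
  exact : ∀ (r : Fin 3) (x y x' y' : V),
    h (pat r x y) (pat r x' y') = h (pat 0 x y) (pat 0 x' y')

/-- `h` depends only on types. -/
def TypeInv [LinearOrder V] (c : V → V → X) (h : (Fin 6 → V) → (Fin 6 → V) → X) : Prop :=
  ∀ v w v' w' : Fin 6 → V, SameType c (Sum.elim v w) (Sum.elim v' w') → h v w = h v' w'

/-- a block of vertices of the shape `κ` with the types `t` -/
def Sh1 [LinearOrder V] (c : V → V → X) (fr : X → X → X) (κ : Fin 6 → Fin 6) (t : Fin 6 → X)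
    (v : Fin 6 → V) : Prop :=
  (∀ l l', v l < v l' ↔ κ l < κ l') ∧ (∀ l, c (v l) (v l) = t l) ∧
    ∀ l l', κ l < κ l' → c (v l) (v l') = fr (t l) (t l')

/-- two blocks of vertices of the shapes `κ` and `κ'` with the colours `w` -/
def Sh2 [LinearOrder V] (c : V → V → X) (fr : X → X → X) (L Rt : X → X) (κ κ' : Fin 6 → Fin 6)
    (w : Fin 6 → X) (v v' : Fin 6 → V) : Prop :=
  Sh1 c fr κ (fun l => L (w l)) v ∧ Sh1 c fr κ' (fun l => Rt (w l)) v' ∧
    (∀ l l', v l < v' l') ∧ ∀ l l',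
      (∀ m, κ m = κ l → κ' m = κ' l' → c (v l) (v' l') = w m) ∧
      ((∀ m, ¬ (κ m = κ l ∧ κ' m = κ' l')) → c (v l) (v' l') = fr (L (w l)) (Rt (w l')))

/-- the value on one block -/
noncomputable def f1 [LinearOrder V] (c : V → V → X) (fr : X → X → X)
    (h : (Fin 6 → V) → (Fin 6 → V) → X) (κ : Fin 6 → Fin 6) (t : Fin 6 → X) : X :=
  if hv : ∃ v, Sh1 c fr κ t v then h hv.choose hv.choose
    else Classical.choice (⟨t 0⟩ : Nonempty X)

/-- the value on two blocks -/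
noncomputable def f2 [LinearOrder V] (c : V → V → X) (fr : X → X → X) (L Rt : X → X)
    (h : (Fin 6 → V) → (Fin 6 → V) → X) (κ κ' : Fin 6 → Fin 6) (w : Fin 6 → X) : X :=
  if hv : ∃ z : (Fin 6 → V) × (Fin 6 → V), Sh2 c fr L Rt κ κ' w z.1 z.2 then
    h hv.choose.1 hv.choose.2 else Classical.choice (⟨w 0⟩ : Nonempty X)

/-- the family given by the shapes `Λ` -/
noncomputable def famOf [LinearOrder V] (c : V → V → X) (fr : X → X → X) (L Rt : X → X)
    (h : (Fin 6 → V) → (Fin 6 → V) → X) {k : ℕ} (Λ : Fin k → (Fin 6 → X) → Fin 6 → Fin 6) :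
    Prs k → (Fin 6 → X) → X :=
  fun e w => if e.1.1 = e.1.2 then f1 c fr h (Λ e.1.1 w) w
    else f2 c fr L Rt h (Λ e.1.1 (fun l => L (w l))) (Λ e.1.2 (fun l => Rt (w l))) w

/-- the shape of the vertices `(x, …, x, y, …, y)` in the order `r` -/
def kS (r : Fin 3) : Fin 6 → Fin 6 := pat r 0 1

/-- The shapes given by the labels `lb`: `0` for generic, `1` for special, `2` for diagonal if the
types are the same (otherwise special if `fb`, and generic if not). -/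
noncomputable def strat {X : Type} (fb : Prop) (r : Fin 3) {k : ℕ} (lb : Fin k → Fin 3) :
    Fin k → (Fin 6 → X) → Fin 6 → Fin 6 :=
  fun i t => if lb i = 0 then id else if lb i = 1 then kS r else
    if ∀ l l', t l = t l' then fun _ => 0 else if fb then kS r else id

/-- the binary families -/
noncomputable def Bf [LinearOrder V] (c : V → V → X) (fr : X → X → X) (L Rt : X → X)
    (h : (Fin 6 → V) → (Fin 6 → V) → X) {k : ℕ} (lb : Fin k → Fin 3) (fb : Prop) (r : Fin 3) :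
    Prs k → (Fin 2 → X) → X :=
  fun e w => famOf c fr L Rt h (strat fb r lb) e (pat r (w 0) (w 1))

/-- the families with six arguments -/
noncomputable def Hf [LinearOrder V] (c : V → V → X) (fr : X → X → X) (L Rt : X → X)
    (h : (Fin 6 → V) → (Fin 6 → V) → X) {k : ℕ} (lb : Fin k → Fin 3) :
    Prs k → (Fin 6 → X) → X :=
  famOf c fr L Rt h (strat False 0 lb)

/-- The shapes `κ i`, `i ∈ J`, are consistent with the six patterns `p l`. -/
structure Cons {k : ℕ} (J : Fin k → Prop) (κ : Fin k → Fin 6 → Fin 6) (p : Fin 6 → Prs k → X) :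
    Prop where
  one : ∀ i, J i → ∀ l l', κ i l = κ i l' → p l (vsK i) = p l' (vsK i)
  two : ∀ i j, J i → J j → (h : i < j) → ∀ l l', κ i l = κ i l' → κ j l = κ j l' →
    p l ⟨(i, j), h.le⟩ = p l' ⟨(i, j), h.le⟩
  star : ∀ (m : ℕ) (q : Fin m → Fin k) (s : Fin m → Fin 6), 2 ≤ m → StrictMono q →
    (∀ a, J (q a)) → (∀ a b, a < b → ∃ l, κ (q a) l = s a ∧ κ (q b) l = s b) →
    ∃ l, ∀ a, κ (q a) l = s a

/-- The hypotheses on the coloured linear order. -/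
structure Setup [LinearOrder V] (𝔸 : Str σ V) (M : ℕ) (c : V → V → X) (fr : X → X → X)
    (L Rt : X → X) : Prop where
  fin : Finite X
  ne : Nonempty V
  two : 2 ≤ M
  typed : Typed c L Rt
  univ : Universal c fr M
  split : SplitClosed 𝔸 c

end concrete

/-! ### Targets: extraction -/

/-- `Universal` for arbitrary finite linear orders -/
def T_UNI : Prop :=
  ∀ (V X : Type) [LinearOrder V] (c : V → V → X) (fr : X → X → X) (M : ℕ), Universal c fr M →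
    ∀ (W : Type) [LinearOrder W] [Finite W] (d : W → W → X),
      (∀ (m : ℕ) (s : Fin m → W), m ≤ M → StrictMono s →
        (∀ i j, i < j → d (s i) (s j) ≠ fr (d (s i) (s i)) (d (s j) (s j))) →
        ∃ v : Fin m → V, ∀ i j, i ≤ j → c (v i) (v j) = d (s i) (s j)) →
      ∃ f : W → V, StrictMono f ∧ ∀ i j, i ≤ j → c (f i) (f j) = d i j

/-- the Olšák function on pairs -/
def T_POW : Prop :=
  ∀ (σ : Sig) (V X : Type) (𝔸 : Str σ V) (M : ℕ) (c : V → V → X), Countable V → Nonempty V →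
    Finite X → Oligo 𝔸 → ¬ PPConstructsK3 𝔸 → ∃ h, GoodMap 𝔸 M c h

/-- canonization -/
def T_CAN : Prop :=
  ∀ (σ : Sig) (V X : Type) [LinearOrder V] (𝔸 : Str σ V) (M : ℕ) (c : V → V → X), Finite X →
    RamseyTypes c → SplitClosed 𝔸 c → ∀ h, GoodMap 𝔸 M c h →
    ∃ h', GoodMap 𝔸 M c h' ∧ TypeInv c h'

/-- switching -/
def T_GEO : Prop :=
  ∀ (σ : Sig) (V X : Type) (𝔸 : Str σ V) (M : ℕ) (c : V → V → X) (L Rt : X → X) (k : ℕ),
    2 ≤ M → Typed c L Rt → Geo (Rk 𝔸 M c k) vsK StK (rdK L Rt)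

/-- validity of the families given by shapes -/
def T_VAL : Prop :=
  ∀ (σ : Sig) (V X : Type) [LinearOrder V] (𝔸 : Str σ V) (M : ℕ) (c : V → V → X)
    (fr : X → X → X) (L Rt : X → X) (h : (Fin 6 → V) → (Fin 6 → V) → X),
    Setup 𝔸 M c fr L Rt → GoodMap 𝔸 M c h → TypeInv c h →
    ∀ (k : ℕ) (Λ : Fin k → (Fin 6 → X) → Fin 6 → Fin 6)
      (l : Σ s : Option (Fin σ.m), (Fin (arP σ M s) → Fin k)) (p : Fin 6 → Prs k → X),
      (∀ i, Rk 𝔸 M c k l (p i)) →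
      Cons (fun i => ∃ a, l.2 a = i) (fun i => Λ i (fun a => p a (vsK i))) p →
      Rk 𝔸 M c k l (fun e => famOf c fr L Rt h Λ e (fun i => p i e))

/-- independence of the order `r` -/
def T_EX : Prop :=
  ∀ (σ : Sig) (V X : Type) [LinearOrder V] (𝔸 : Str σ V) (M : ℕ) (c : V → V → X)
    (fr : X → X → X) (L Rt : X → X) (h : (Fin 6 → V) → (Fin 6 → V) → X),
    GoodMap 𝔸 M c h → TypeInv c h → ∀ (r : Fin 3) (a b : X),
      f1 c fr h (kS r) (pat r a b) = f1 c fr h (kS 0) (pat 0 a b) ∧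
      f2 c fr L Rt h (kS r) (kS r) (pat r a b) = f2 c fr L Rt h (kS 0) (kS 0) (pat 0 a b) ∧
      (L a = L b → f2 c fr L Rt h (fun _ => 0) (kS r) (pat r a b) =
        f2 c fr L Rt h (fun _ => 0) (kS 0) (pat 0 a b)) ∧
      (Rt a = Rt b → f2 c fr L Rt h (kS r) (fun _ => 0) (pat r a b) =
        f2 c fr L Rt h (kS 0) (fun _ => 0) (pat 0 a b))

/-- consistency of the labels -/
def T_CNS : Prop :=
  ∀ (X : Type) (k : ℕ) (J : Fin k → Prop) (lb : Fin k → Fin 3) (fb : Prop) (r : Fin 3)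
    (p : Fin 6 → Prs k → X), (∀ i j, lb i = 2 → lb j = 2 → i = j) →
    ((∃ a b : Prs k → X, ∀ l, p l = pat r a b l) ∨ ((∀ i, lb i ≠ 1) ∧ ¬ fb)) →
    Cons J (fun i => strat fb r lb i (fun a => p a (vsK i))) p

/-- mixed families at a vertex -/
def T_MXV : Prop :=
  ∀ (σ : Sig) (V X : Type) [LinearOrder V] (𝔸 : Str σ V) (M : ℕ) (c : V → V → X)
    (fr : X → X → X) (L Rt : X → X) (h : (Fin 6 → V) → (Fin 6 → V) → X),
    Setup 𝔸 M c fr L Rt → GoodMap 𝔸 M c h → TypeInv c h →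
    ∀ k : ℕ, MixV (Rk 𝔸 M c k) vsK StK

/-- mixed families at two pairs -/
def T_MXP : Prop :=
  ∀ (σ : Sig) (V X : Type) [LinearOrder V] (𝔸 : Str σ V) (M : ℕ) (c : V → V → X)
    (fr : X → X → X) (L Rt : X → X) (h : (Fin 6 → V) → (Fin 6 → V) → X),
    Setup 𝔸 M c fr L Rt → GoodMap 𝔸 M c h → TypeInv c h →
    ∀ k : ℕ, MixP (Rk 𝔸 M c k) vsK StK (rdK L Rt)

/-- the limit of Olšák families -/
def T_LIM : Prop :=
  ∀ (σ : Sig) (V X : Type) (𝔸 : Str σ V) (M : ℕ) (c : V → V → X), Finite X → Nonempty X →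
    (∀ k : ℕ, ∃ F : Prs k → (Fin 6 → X) → X, Fam (Rk 𝔸 M c k) (Fin 6) F ∧
      ∀ e x y r, F e (pat r x y) = F e (pat 0 x y)) →
    HasOlsak (template 𝔸 M c) (template 𝔸 M c)

/-! ### Targets: the reduction -/

/-- correctness of the reduction -/
def T_RE1 : Prop :=
  ∀ (σ : Sig) (V X : Type) [LinearOrder V] (𝔸 : Str σ V) (M : ℕ) (c : V → V → X)
    (fr : X → X → X) (L Rt : X → X), Setup 𝔸 M c fr L Rt → ∀ (n : ℕ) (𝕏 : Str σ (Fin n)),
    (∃ f, IsHom 𝕏 𝔸 f) ↔ ∃ q : Fin (n + M) → Fin (n + M) → X × Bool,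
      ∀ (s : Option (Fin σ.m)) (y : Fin (arP σ M s) → Fin (n + M))
        (τ : Fin (arP σ M s) → Fin (arP σ M s)),
        relP (fun l x => ∃ z : Fin (σ.ar l) → Fin n, 𝕏 l z ∧ x = fun i => Fin.castAdd M (z i)) M
          s y → (∀ a b, y a ≤ y b ↔ τ a ≤ τ b) →
        ∃ x : Fin (arP σ M s) → V, relP 𝔸 M s x ∧ (∀ a b, τ a = τ b → x a = x b) ∧
          ∀ a b, τ a ≤ τ b → q (y a) (y b) = (c (x a) (x b), decide (τ a = τ b))

/-- the reduction -/
def T_RED : Prop :=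
  ∀ (σ : Sig) (V X : Type) [LinearOrder V] (𝔸 : Str σ V) (M : ℕ) (c : V → V → X)
    (fr : X → X → X) (L Rt : X → X), Setup 𝔸 M c fr L Rt →
    N793a5b8e.ManyOneReducible (CSP 𝔸) (CSP (template 𝔸 M c))

end Pool.Agent.H53.GC
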