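import Pool.Agent.H53.GC.Targets

/-!
# Assembly
-/

set_option autoImplicit false

namespace Pool.Agent.H53.GC

open Pool.Agent.H68.BP Pool.Agent.H58.SF

/-- no selection for structures with mixed families -/
theorem no_selects (hCOR : T_COR) (hOMG : T_OMG) (hFIN : T_FIN) {𝓔 X 𝓛 Vx : Type} [Finite 𝓔]
    [Finite X] [Finite Vx] {R : 𝓛 → (𝓔 → X) → Prop} {vs : Vx → 𝓔} {St : Vx → 𝓔 → Prop}
    {rd : Vx → 𝓔 → X → X} (h1 : Geo R vs St rd) (h2 : MixV R vs St) (h3 : MixP R vs St rd) :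
    ¬ ∃ Z, Selects R Z := by
  intro h
  obtain ⟨ρ, hρ⟩ := hCOR 𝓔 X 𝓛 R
  obtain ⟨ξ, hξ⟩ := hOMG 𝓔 X 𝓛 R ρ hρ h
  exact hFIN 𝓔 X 𝓛 Vx R vs St rd ρ ξ h1 h2 h3 hρ hξ

/-- The main theorem, from the targets. -/
theorem asm (hCOR : T_COR) (hOMG : T_OMG) (hFIN : T_FIN) (hOLF : T_OLF) (hOLS : T_OLS)
    (hPOW : T_POW) (hCAN : T_CAN) (hGEO : T_GEO) (hMXV : T_MXV) (hMXP : T_MXP) (hLIM : T_LIM)
    (hRED : T_RED) {σ : Sig} {V X : Type} [LinearOrder V] {𝔸 : Str σ V} {M : ℕ} {c : V → V → X}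
    {fr : X → X → X} {L Rt : X → X} (hV : Countable V) (hs : Setup 𝔸 M c fr L Rt)
    (hol : Oligo 𝔸) (hR : RamseyTypes c) :
    PPConstructsK3 𝔸 ∨ (¬ PPConstructsK3 (template 𝔸 M c) ∧
      N793a5b8e.ManyOneReducible (CSP 𝔸) (CSP (template 𝔸 M c))) := by
  have := hs.fin
  have := hs.ne
  have hX : Nonempty X := ⟨c (Classical.arbitrary V) (Classical.arbitrary V)⟩
  by_cases hK : PPConstructsK3 𝔸
  · exact Or.inl hK
  · refine Or.inr ⟨?_, hRED σ V X 𝔸 M c fr L Rt hs⟩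
    obtain ⟨h, hh⟩ := hPOW σ V X 𝔸 M c hV hs.ne hs.fin hol hK
    obtain ⟨h', hh', ht⟩ := hCAN σ V X 𝔸 M c hs.fin hR hs.split h hh
    refine hOLS _ _ _ (hLIM σ V X 𝔸 M c hs.fin hX fun k => ?_)
    exact hOLF _ _ _ _ (no_selects hCOR hOMG hFIN (hGEO σ V X 𝔸 M c L Rt k hs.two hs.typed)
      (hMXV σ V X 𝔸 M c fr L Rt h' hs hh' ht k) (hMXP σ V X 𝔸 M c fr L Rt h' hs hh' ht k))

end Pool.Agent.H53.GC
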