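import Pool.Agent.H53.GC.Targets

/-!
# The switching argument
-/

set_option autoImplicit false

namespace Pool.Agent.H53.GC

open Pool.Agent.H68.BP Pool.Agent.H58.SF
open Classical

section switching

variable {𝓔 X 𝓛 Vx : Type} {R : 𝓛 → (𝓔 → X) → Prop}
  {vs : Vx → 𝓔} {St : Vx → 𝓔 → Prop} {rd : Vx → 𝓔 → X → X} {ρ : 𝓔 → X → X}
  {ξ : (𝓔 → (Fin 2 → X) → X) → Fin 2}

/-- composition of families -/
def cmp {n : ℕ} (Q : 𝓔 → (Fin n → X) → X) (F : Fin n → 𝓔 → (Fin 2 → X) → X) :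
    𝓔 → (Fin 2 → X) → X :=
  fun e w => Q e (fun a => F a e w)

theorem IFam.cmp (hρ : CoreRet R ρ) {n : ℕ} {Q : 𝓔 → (Fin n → X) → X}
    {F : Fin n → 𝓔 → (Fin 2 → X) → X} (hQ : IFam R ρ (Fin n) Q)
    (hF : ∀ a, IFam R ρ (Fin 2) (F a)) : IFam R ρ (Fin 2) (cmp Q F) where
  fam l p hp := hQ.fam l (fun a e => F a e (fun i => p i e)) fun a => (hF a).fam l p hp
  left e w := hQ.left e _
  right e w := by
    change Q e _ = Q e _
    congr 1
    funext a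
    exact (hF a).right e w
  idem e t := by
    change Q e _ = _
    have h1 : (fun a => F a e (fun _ => t)) = fun _ : Fin n => ρ e t :=
      funext fun a => (hF a).idem e t
    rw [h1, hQ.idem, hρ.idem]

/-- sets of families closed under the idempotent families -/
structure Sub (R : 𝓛 → (𝓔 → X) → Prop) (ρ : 𝓔 → X → X) (B : Set (𝓔 → (Fin 2 → X) → X)) :
    Prop where
  mem : ∀ F ∈ B, IFam R ρ (Fin 2) F
  clo : ∀ (n : ℕ) (Q : 𝓔 → (Fin n → X) → X), IFam R ρ (Fin n) Q →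
    ∀ F : Fin n → 𝓔 → (Fin 2 → X) → X, (∀ a, F a ∈ B) → cmp Q F ∈ B

/-- both values occur -/
def Bi (ξ : (𝓔 → (Fin 2 → X) → X) → Fin 2) (B : Set (𝓔 → (Fin 2 → X) → X)) : Prop :=
  ∃ F ∈ B, ∃ G ∈ B, ξ F ≠ ξ G

/-- the value of `ξ` is determined by one coordinate -/
def Loc (ξ : (𝓔 → (Fin 2 → X) → X) → Fin 2) (B : Set (𝓔 → (Fin 2 → X) → X)) (e : 𝓔)
    (w : Fin 2 → X) : Prop :=
  ∀ F ∈ B, ∀ G ∈ B, F e w = G e w → ξ F = ξ G

theorem Sub.fiber {B : Set (𝓔 → (Fin 2 → X) → X)} (hB : Sub R ρ B) (e : 𝓔) (w : Fin 2 → X)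
    {b : X} (hb : ρ e b = b) : Sub R ρ {F | F ∈ B ∧ F e w = b} where
  mem F hF := hB.mem F hF.1
  clo n Q hQ F hF := by
    refine ⟨hB.clo n Q hQ F fun a => (hF a).1, ?_⟩
    change Q e (fun a => F a e w) = b
    have h1 : (fun a => F a e w) = fun _ : Fin n => b := funext fun a => (hF a).2
    rw [h1, hQ.idem, hb]

/-- The reduction lemma. -/
theorem reduction (S : Finset (𝓔 × (Fin 2 → X))) : ∀ B : Set (𝓔 → (Fin 2 → X) → X),
    Sub R ρ B → Bi ξ B →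
    (∃ B' ⊆ B, Sub R ρ B' ∧ Bi ξ B' ∧ ∃ z ∈ S, Loc ξ B' z.1 z.2) ∨
    ∃ B' ⊆ B, Sub R ρ B' ∧ Bi ξ B' ∧ ∀ z ∈ S, ∀ F ∈ B', ∀ G ∈ B', F z.1 z.2 = G z.1 z.2 := by
  induction S using Finset.induction_on with
  | empty => exact fun B hB hb => Or.inr ⟨B, subset_rfl, hB, hb, by simp⟩
  | insert z S hz ih =>
    intro B hB hb
    rcases ih B hB hb with ⟨B', h1, h2, h3, z', h4, h5⟩ | ⟨B', h1, h2, h3, h4⟩
    · exact Or.inl ⟨B', h1, h2, h3, z', Finset.mem_insert_of_mem h4, h5⟩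
    · by_cases hl : Loc ξ B' z.1 z.2
      · exact Or.inl ⟨B', h1, h2, h3, z, Finset.mem_insert_self _ _, hl⟩
      · unfold Loc at hl
        push Not at hl
        obtain ⟨F, hF, G, hG, he, hx⟩ := hl
        have hb' : ρ z.1 (F z.1 z.2) = F z.1 z.2 := (h2.mem F hF).left _ _
        refine Or.inr ⟨{K | K ∈ B' ∧ K z.1 z.2 = F z.1 z.2}, fun K hK => h1 hK.1,
          h2.fiber z.1 z.2 hb', ⟨F, ⟨hF, rfl⟩, G, ⟨hG, he.symm⟩, hx⟩, ?_⟩
        intro z' hz' K hK K' hK'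
        rcases Finset.mem_insert.1 hz' with rfl | h5
        · rw [hK.2, hK'.2]
        · exact h4 z' h5 K hK.1 K' hK'.1

/-- Families which agree locally have the same coordinate. -/
theorem local_agree {B : Set (𝓔 → (Fin 2 → X) → X)} (hB : Sub R ρ B) (hb : Bi ξ B) {e : 𝓔}
    {w : Fin 2 → X} (hl : Loc ξ B e w) {n : ℕ} {Q Q' : 𝓔 → (Fin n → X) → X}
    (hQ : IFam R ρ (Fin n) Q) (hQ' : IFam R ρ (Fin n) Q')
    (h : ∀ F : Fin n → 𝓔 → (Fin 2 → X) → X, (∀ a, F a ∈ B) →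
      Q e (fun a => F a e w) = Q' e (fun a => F a e w)) {i i' : Fin n}
    (hi : ∀ F : Fin n → 𝓔 → (Fin 2 → X) → X, (∀ a, IFam R ρ (Fin 2) (F a)) →
      ξ (fun e w => Q e (fun a => F a e w)) = ξ (F i))
    (hi' : ∀ F : Fin n → 𝓔 → (Fin 2 → X) → X, (∀ a, IFam R ρ (Fin 2) (F a)) →
      ξ (fun e w => Q' e (fun a => F a e w)) = ξ (F i')) : i = i' := by
  obtain ⟨A, hA, A', hA', hx⟩ := hb
  by_contra hne
  let F : Fin n → 𝓔 → (Fin 2 → X) → X := fun a => if a = i then A else A'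
  have hF : ∀ a, F a ∈ B := by
    intro a
    by_cases ha : a = i
    · simp only [F, if_pos ha, hA]
    · simp only [F, if_neg ha, hA']
  have h1 := hi F fun a => hB.mem _ (hF a)
  have h2 := hi' F fun a => hB.mem _ (hF a)
  have h3 := hl _ (hB.clo n Q hQ F hF) _ (hB.clo n Q' hQ' F hF) (h F hF)
  have h4 : F i = A := if_pos rfl
  have h5 : F i' = A' := if_neg (Ne.symm hne)
  have h6 : ξ (cmp Q F) = ξ A := by rw [← h4]; exact h1
  have h7 : ξ (cmp Q' F) = ξ A' := by rw [← h5]; exact h2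
  rw [h6, h7] at h3
  exact hx h3

/-- binary families: the coordinate is the value of `ξ` -/
theorem idx2 (hρ : CoreRet R ρ) (hξ : Proj2 R ρ ξ) {Q : 𝓔 → (Fin 2 → X) → X}
    (hQ : IFam R ρ (Fin 2) Q) (F : Fin 2 → 𝓔 → (Fin 2 → X) → X)
    (hF : ∀ a, IFam R ρ (Fin 2) (F a)) :
    ξ (fun e w => Q e (fun a => F a e w)) = ξ (F (ξ Q)) := by
  obtain ⟨i, hi⟩ := hξ.2 2 Q hQ
  have hpr : ∀ b : Fin 2, IFam R ρ (Fin 2) (fun e w => ρ e (w b)) := fun b =>
    { fam := fun l p hp => hρ.fam l (p b) (hp b)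
      left := fun e w => hρ.idem e _
      right := fun e w => hρ.idem e _
      idem := fun e t => rfl }
  have h1 := hi (fun b e w => ρ e (w b)) hpr
  have h2 : (fun e w => Q e (fun a => ρ e (w a))) = Q := by
    funext e w
    exact hQ.right e w
  rw [h2, hξ.1 i] at h1
  rw [h1]
  exact hi F hF

/-- The switch. -/
theorem switch (hρ : CoreRet R ρ) (hξ : Proj2 R ρ ξ) {B : Set (𝓔 → (Fin 2 → X) → X)}
    (hB : Sub R ρ B) (hb : Bi ξ B) {e : 𝓔} {w : Fin 2 → X} (hl : Loc ξ B e w)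
    {f g : 𝓔 → (Fin 2 → X) → X} (hf : IFam R ρ (Fin 2) f) (hg : IFam R ρ (Fin 2) g)
    (hfg : ξ f ≠ ξ g)
    (h : ∀ b₀ b₁ : X, ρ e b₀ = b₀ → ρ e b₁ = b₁ → b₀ ≠ b₁ → ∃ q, IFam R ρ (Fin 2) q ∧
      q e ![b₀, b₁] = f e ![b₀, b₁] ∧ q e ![b₁, b₀] = g e ![b₁, b₀]) : False := by
  obtain ⟨A, hA, A', hA', hx⟩ := hb
  have hAI := hB.mem A hA
  have hAI' := hB.mem A' hA'
  have hne : A e w ≠ A' e w := fun h1 => hx (hl A hA A' hA' h1)
  obtain ⟨q, hq, h1, h2⟩ := h (A e w) (A' e w) (hAI.left _ _) (hAI'.left _ _) hne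
  have key : ∀ (K K' : 𝓔 → (Fin 2 → X) → X), K ∈ B → K' ∈ B → ξ K ≠ ξ K' →
      ∀ r : 𝓔 → (Fin 2 → X) → X, IFam R ρ (Fin 2) r →
      q e ![K e w, K' e w] = r e ![K e w, K' e w] → ξ q = ξ r := by
    intro K K' hK hK' hKK r hr he
    have hFB : ∀ a : Fin 2, (![K, K'] : Fin 2 → 𝓔 → (Fin 2 → X) → X) a ∈ B := by
      intro a
      fin_cases a
      · exact hK
      · exact hK'
    have hv : ∀ s : 𝓔 → (Fin 2 → X) → X,
        cmp s ![K, K'] e w = s e ![K e w, K' e w] := by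
      intro s
      change s e _ = s e _
      congr 1
      funext a
      fin_cases a <;> rfl
    have h3 := hl _ (hB.clo 2 q hq ![K, K'] hFB) _ (hB.clo 2 r hr ![K, K'] hFB) (by
      rw [hv, hv, he])
    have h4 : ξ (cmp q ![K, K']) = ξ ((![K, K'] : Fin 2 → 𝓔 → (Fin 2 → X) → X) (ξ q)) :=
      idx2 hρ hξ hq _ fun a => hB.mem _ (hFB a)
    have h5 : ξ (cmp r ![K, K']) = ξ ((![K, K'] : Fin 2 → 𝓔 → (Fin 2 → X) → X) (ξ r)) :=
      idx2 hρ hξ hr _ fun a => hB.mem _ (hFB a)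
    rw [h4, h5] at h3
    by_contra hne'
    have key2 : ∀ a b : Fin 2, a ≠ b → (a = 0 ∧ b = 1) ∨ (a = 1 ∧ b = 0) := by decide
    rcases key2 _ _ hne' with ⟨e1, e2⟩ | ⟨e1, e2⟩
    · rw [e1, e2] at h3
      exact hKK h3
    · rw [e1, e2] at h3
      exact hKK h3.symm
  have k1 := key A A' hA hA' hx f hf h1
  have k2 := key A' A hA' hA (Ne.symm hx) g hg h2
  exact hfg (k1.symm.trans k2)

/-! ### Patterns -/

theorem pat_const {Y : Type} (r : Fin 3) (y : Y) : pat r y y = fun _ => y := by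
  funext i
  fin_cases r <;> fin_cases i <;> rfl

theorem pat_eq {Y : Type} (r : Fin 3) (w : Fin 2 → Y) :
    pat r (w 0) (w 1) = fun a => w (pat r 0 1 a) := by
  funext a
  exact (pat_map w r 0 1 a).symm

theorem pat_vary (κ : Fin 6) (x : Fin 2) : ∃ r : Fin 3, pat r (0 : Fin 2) 1 κ ≠ x := by
  revert κ x
  decide

theorem nrm_pat [Finite X] (r : X → X) (f : (Fin 6 → X) → X) (j : Fin 3) (w : Fin 2 → X) :
    nrm r (fun w : Fin 2 → X => f (pat j (w 0) (w 1))) w = nrm r f (pat j (w 0) (w 1)) := by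
  unfold nrm
  simp only [pat_const]
  congr 3
  funext a
  exact (pat_map r j (w 0) (w 1) a).symm

/-- The family `H (pat r (w 0) (w 1))`: its value is the coordinate of `H`. -/
theorem xi_pat (hN : T_NRM) [Finite X] (hρ : CoreRet R ρ) (hξ : Proj2 R ρ ξ)
    {H : 𝓔 → (Fin 6 → X) → X} (hH : Fam R (Fin 6) H) : ∃ κ : Fin 6, ∀ r : Fin 3,
      ξ (fun e => nrm (ρ e) (fun w : Fin 2 → X => H e (pat r (w 0) (w 1)))) =
        pat r (0 : Fin 2) 1 κ := by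
  have hI : IFam R ρ (Fin 6) (fun e => nrm (ρ e) (H e)) := hN 𝓔 X 𝓛 R ρ hρ (Fin 6) H hH
  obtain ⟨κ, hκ⟩ := hξ.2 6 _ hI
  refine ⟨κ, fun r => ?_⟩
  have hpr : ∀ b : Fin 2, IFam R ρ (Fin 2) (fun e w => ρ e (w b)) := fun b =>
    { fam := fun l p hp => hρ.fam l (p b) (hp b)
      left := fun e w => hρ.idem e _
      right := fun e w => hρ.idem e _
      idem := fun e t => rfl }
  have h1 := hκ (fun a e w => ρ e (w (pat r (0 : Fin 2) 1 a))) fun a => hpr _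
  rw [hξ.1] at h1
  rw [← h1]
  congr 1
  funext e w
  rw [nrm_pat, pat_eq]
  exact (hI.right e (fun a => w (pat r (0 : Fin 2) 1 a))).symm

theorem fam_pat {H : 𝓔 → (Fin 6 → X) → X} (hH : Fam R (Fin 6) H) (r : Fin 3) :
    Fam R (Fin 2) (fun e w => H e (pat r (w 0) (w 1))) := by
  intro l p hp
  have h1 := hH l (fun a => p (pat r (0 : Fin 2) 1 a)) fun a => hp _
  have h2 : (fun e => H e (pat r (p 0 e) (p 1 e))) =
      fun e => H e (fun a => p (pat r (0 : Fin 2) 1 a) e) := by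
    funext e
    rw [pat_eq r (fun i => p i e)]
  change R l (fun e => H e (pat r (p 0 e) (p 1 e)))
  rw [h2]
  exact h1

/-! ### Vertex sorts -/

theorem not_loc_vertex (hN : T_NRM) [Finite X] (hG : Geo R vs St rd) (hV : MixV R vs St)
    (hρ : CoreRet R ρ) (hξ : Proj2 R ρ ξ) {B : Set (𝓔 → (Fin 2 → X) → X)} (hB : Sub R ρ B)
    (hb : Bi ξ B) (v : Vx) {w : Fin 2 → X} (hl : Loc ξ B (vs v) w) : False := by
  obtain ⟨D, H, G, hD, hH, hGf, h1, h2⟩ := hV v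
  obtain ⟨κ, hκ⟩ := xi_pat hN hρ hξ hH
  have hDI := hN 𝓔 X 𝓛 R ρ hρ (Fin 2) D hD
  have hGI := fun r => hN 𝓔 X 𝓛 R ρ hρ (Fin 2) (G r) (hGf r)
  have hHI := fun r => hN 𝓔 X 𝓛 R ρ hρ (Fin 2) _ (fam_pat hH r)
  have h3 : ∀ r, ξ (fun e => nrm (ρ e) (G r e)) = ξ (fun e => nrm (ρ e) (D e)) := by
    intro r
    refine local_agree hB hb hl (hGI r) hDI (fun F _ => ?_)
      (idx2 hρ hξ (hGI r)) (idx2 hρ hξ hDI)
    have h4 : G r (vs v) = D (vs v) := funext fun w => h1 r w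
    simp only [h4]
  obtain ⟨r, hr⟩ := pat_vary κ (ξ (fun e => nrm (ρ e) (D e)))
  have hfg : ξ (fun e => nrm (ρ e) (G r e)) ≠
      ξ (fun e => nrm (ρ e) (fun w : Fin 2 → X => H e (pat r (w 0) (w 1)))) := by
    rw [h3, hκ]
    exact hr.symm
  refine switch hρ hξ hB hb hl (hGI r) (hHI r) hfg ?_
  intro b₀ b₁ hb₀ hb₁ hne
  let f : 𝓔 → (Fin 2 → X) → X := fun e => nrm (ρ e) (G r e)
  let g : 𝓔 → (Fin 2 → X) → X := fun e =>
    nrm (ρ e) (fun w : Fin 2 → X => H e (pat r (w 0) (w 1)))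
  have hoff : ∀ e, ¬ St v e → f e = g e := by
    intro e he
    have h4 : G r e = fun w : Fin 2 → X => H e (pat r (w 0) (w 1)) :=
      funext fun w => h2 r e he w
    simp only [f, g, h4]
  let C : (Fin 2 → X) → Prop := fun t => ρ (vs v) (t 0) = b₀ ∧ ρ (vs v) (t 1) = b₁
  have hrdρ : ∀ e, St v e → ∀ x, rd v e (ρ e x) = ρ (vs v) (rd v e x) := by
    intro e he x
    exact hG.compat Unit (fun e w => ρ e (w ())) (fun l p hp => hρ.fam l (p ()) (hp ())) v e he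
      (fun _ => x)
  have hCρ : ∀ e, St v e → ∀ w : Fin 2 → X,
      C (fun i => rd v e (ρ e (w i))) ↔ C (fun i => rd v e (w i)) := by
    intro e he w
    simp only [C, hrdρ e he, hρ.idem]
  let q : 𝓔 → (Fin 2 → X) → X := fun e w => if C (fun i => rd v e (w i)) then f e w else g e w
  refine ⟨q, ⟨?_, ?_, ?_, ?_⟩, ?_, ?_⟩
  · convert hG.swV (Fin 2) v f g (hGI r).fam (hHI r).fam hoff C
  · intro e w
    simp only [q]
    split_ifs
    · exact (hGI r).left e w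
    · exact (hHI r).left e w
  · intro e w
    by_cases he : St v e
    · simp only [q, hCρ e he]
      split_ifs
      · exact (hGI r).right e w
      · exact (hHI r).right e w
    · simp only [q, hoff e he, ite_self]
      exact (hHI r).right e w
  · intro e t
    simp only [q]
    split_ifs
    · exact (hGI r).idem e t
    · exact (hHI r).idem e t
  · have : C (fun i => rd v (vs v) ((![b₀, b₁] : Fin 2 → X) i)) := by
      simp only [C, hG.rd_vs]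
      exact ⟨hb₀, hb₁⟩
    simp only [q, if_pos this]
    rfl
  · have : ¬ C (fun i => rd v (vs v) ((![b₁, b₀] : Fin 2 → X) i)) := by
      simp only [C, hG.rd_vs]
      intro h
      exact hne (h.1.symm.trans hb₁)
    simp only [q, if_neg this]
    rfl

/-- normalizations which agree on arguments with the same types -/
theorem nrm_congr {I : Type} {r : X → X} {f g : (I → X) → X} (hc : ∀ y, f (fun _ => y) =
    g (fun _ => y)) {w : I → X} (hw : ∀ i, r (w i) = w i) (h : f w = g w) :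
    nrm r f w = nrm r g w := by
  unfold nrm
  have h1 : (fun i => r (w i)) = w := funext hw
  simp only [hc, h1, h]

/-! ### The contradiction -/

theorem pf_FIN (hN : T_NRM) : T_FIN := by
  intro 𝓔 X 𝓛 Vx _ _ _ R vs St rd ρ ξ hG hV hP hρ hξ
  have hfE := Fintype.ofFinite 𝓔
  have hfX := Fintype.ofFinite X
  -- the set of all families
  let B₀ : Set (𝓔 → (Fin 2 → X) → X) := {F | IFam R ρ (Fin 2) F}
  have hB₀ : Sub R ρ B₀ := ⟨fun F hF => hF, fun n Q hQ F hF => IFam.cmp hρ hQ hF⟩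
  have hpr : ∀ b : Fin 2, IFam R ρ (Fin 2) (fun e w => ρ e (w b)) := fun b =>
    { fam := fun l p hp => hρ.fam l (p b) (hp b)
      left := fun e w => hρ.idem e _
      right := fun e w => hρ.idem e _
      idem := fun e t => rfl }
  have hb₀ : Bi ξ B₀ := ⟨_, hpr 0, _, hpr 1, by
    rw [hξ.1, hξ.1]
    decide⟩
  -- the vertex coordinates
  obtain ⟨B₁, -, hB₁, hb₁, hc₁⟩ : ∃ B' ⊆ B₀, Sub R ρ B' ∧ Bi ξ B' ∧
      ∀ z ∈ (Finset.univ.filter fun z : 𝓔 × (Fin 2 → X) => ∃ v, z.1 = vs v),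
        ∀ F ∈ B', ∀ G ∈ B', F z.1 z.2 = G z.1 z.2 := by
    rcases reduction (Finset.univ.filter fun z : 𝓔 × (Fin 2 → X) => ∃ v, z.1 = vs v) B₀ hB₀
      hb₀ with ⟨B', _, h2, h3, z, h4, h5⟩ | h
    · obtain ⟨v, hv⟩ := (Finset.mem_filter.1 h4).2
      rw [hv] at h5
      exact (not_loc_vertex hN hG hV hρ hξ h2 h3 v h5).elim
    · exact h
  have hc : ∀ F ∈ B₁, ∀ G ∈ B₁, ∀ v w, F (vs v) w = G (vs v) w := fun F hF G hG' v w =>
    hc₁ (vs v, w) (by simp) F hF G hG'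
  -- values have the same types
  have htype : ∀ (e : 𝓔) (w : Fin 2 → X) (F : Fin 2 → 𝓔 → (Fin 2 → X) → X),
      (∀ a, F a ∈ B₁) → ∀ v, St v e → rd v e (F 0 e w) = rd v e (F 1 e w) := by
    intro e w F hF v hv
    rw [hG.compat (Fin 2) (F 0) (hB₁.mem _ (hF 0)).fam v e hv w,
      hG.compat (Fin 2) (F 1) (hB₁.mem _ (hF 1)).fam v e hv w]
    exact hc _ (hF 0) _ (hF 1) v _
  -- two pair sorts
  have two : ∀ (e e' : 𝓔) (w w' : Fin 2 → X) (B B' : Set (𝓔 → (Fin 2 → X) → X)), B ⊆ B₁ →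
      B' ⊆ B₁ → Sub R ρ B → Sub R ρ B' → Bi ξ B → Bi ξ B' → Loc ξ B e w → Loc ξ B' e' w' →
      (∀ v, e ≠ vs v) → (∀ v, e' ≠ vs v) → e ≠ e' → False := by
    intro e e' w w' B B' hs hs' hB hB' hb hb' hl hl' he he' hne
    obtain ⟨D, H, G, hD, hH, hGf, h1, h2⟩ := hP e e' he he' hne
    obtain ⟨κ, hκ⟩ := xi_pat hN hρ hξ hH
    have hDI := hN 𝓔 X 𝓛 R ρ hρ (Fin 2) D hD
    have hGI := fun r => hN 𝓔 X 𝓛 R ρ hρ (Fin 2) (G r) (hGf r)
    have hHI := fun r => hN 𝓔 X 𝓛 R ρ hρ (Fin 2) _ (fam_pat hH r)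
    have h3 : ∀ r, ξ (fun e => nrm (ρ e) (G r e)) = ξ (fun e => nrm (ρ e) (D e)) := by
      intro r
      refine local_agree hB hb hl (hGI r) hDI (fun F hF => ?_)
        (idx2 hρ hξ (hGI r)) (idx2 hρ hξ hDI)
      refine nrm_congr (fun y => h1 r _ fun v _ => rfl)
        (fun i => (hB.mem _ (hF i)).left _ _) (h1 r _ fun v hv => ?_)
      exact htype e w F (fun a => hs (hF a)) v hv
    have h4 : ∀ r, ξ (fun e => nrm (ρ e) (G r e)) =
        ξ (fun e => nrm (ρ e) (fun w : Fin 2 → X => H e (pat r (w 0) (w 1)))) := by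
      intro r
      refine local_agree hB' hb' hl' (hGI r) (hHI r) (fun F hF => ?_)
        (idx2 hρ hξ (hGI r)) (idx2 hρ hξ (hHI r))
      refine nrm_congr (fun y => h2 r _ fun v _ => rfl)
        (fun i => (hB'.mem _ (hF i)).left _ _) (h2 r _ fun v hv => ?_)
      exact htype e' w' F (fun a => hs' (hF a)) v hv
    obtain ⟨r, hr⟩ := pat_vary κ (ξ (fun e => nrm (ρ e) (D e)))
    refine hr ?_
    rw [← hκ r, ← h4 r, h3 r]
  -- the local sort
  obtain ⟨B₂, hs₂, hB₂, hb₂, e, w, hl⟩ : ∃ B' ⊆ B₁, Sub R ρ B' ∧ Bi ξ B' ∧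
      ∃ (e : 𝓔) (w : Fin 2 → X), Loc ξ B' e w := by
    rcases reduction (Finset.univ : Finset (𝓔 × (Fin 2 → X))) B₁ hB₁ hb₁ with
      ⟨B', h1, h2, h3, z, h4, h5⟩ | ⟨B', _, h2, ⟨F, hF, G, hG', hx⟩, h4⟩
    · exact ⟨B', h1, h2, h3, z.1, z.2, h5⟩
    · refine absurd ?_ hx
      congr 1
      funext e w
      exact h4 (e, w) (Finset.mem_univ _) F hF G hG'
  have he : ∀ v, e ≠ vs v := by
    rintro v rfl
    exact not_loc_vertex hN hG hV hρ hξ hB₂ hb₂ v hl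
  obtain ⟨B₃, hs₃, hB₃, ⟨f, hf, g, hg, hx⟩, hc₃⟩ : ∃ B' ⊆ B₁, Sub R ρ B' ∧ Bi ξ B' ∧
      ∀ z ∈ (Finset.univ.filter fun z : 𝓔 × (Fin 2 → X) => z.1 ≠ e),
        ∀ F ∈ B', ∀ G ∈ B', F z.1 z.2 = G z.1 z.2 := by
    rcases reduction (Finset.univ.filter fun z : 𝓔 × (Fin 2 → X) => z.1 ≠ e) B₁ hB₁ hb₁ with
      ⟨B', h1, h2, h3, z, h4, h5⟩ | h
    · have hz := (Finset.mem_filter.1 h4).2
      by_cases hv : ∃ v, z.1 = vs v
      · obtain ⟨v, hv⟩ := hv
        rw [hv] at h5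
        exact (not_loc_vertex hN hG hV hρ hξ h2 h3 v h5).elim
      · exact (two e z.1 w z.2 B₂ B' hs₂ h1 hB₂ h2 hb₂ h3 hl h5 he
          (fun v h => hv ⟨v, h⟩) (Ne.symm hz)).elim
    · exact h
  have hoff : ∀ e', e' ≠ e → f e' = g e' := fun e' he' =>
    funext fun w => hc₃ (e', w) (by simp [he']) f hf g hg
  have hfI := hB₃.mem f hf
  have hgI := hB₃.mem g hg
  refine switch hρ hξ hB₂ hb₂ hl hfI hgI hx ?_
  intro b₀ b₁ hb₀ hb₁ hne
  let C : (Fin 2 → X) → Prop := fun t => ρ e (t 0) = b₀ ∧ ρ e (t 1) = b₁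
  have hCρ : ∀ w : Fin 2 → X, C (fun i => ρ e (w i)) ↔ C w := by
    intro w
    simp only [C, hρ.idem]
  let q : 𝓔 → (Fin 2 → X) → X := fun e' w => if C w then f e' w else g e' w
  refine ⟨q, ⟨?_, ?_, ?_, ?_⟩, ?_, ?_⟩
  · convert hG.swP (Fin 2) e he f g hfI.fam hgI.fam hoff C
  · intro e' w
    simp only [q]
    split_ifs
    · exact hfI.left e' w
    · exact hgI.left e' w
  · intro e' w
    by_cases he' : e' = e
    · subst he'
      simp only [q, hCρ]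
      split_ifs
      · exact hfI.right e' w
      · exact hgI.right e' w
    · simp only [q, hoff e' he', ite_self]
      exact hgI.right e' w
  · intro e' t
    simp only [q]
    split_ifs
    · exact hfI.idem e' t
    · exact hgI.idem e' t
  · have : C (![b₀, b₁] : Fin 2 → X) := ⟨hb₀, hb₁⟩
    simp only [q, if_pos this]
  · have : ¬ C (![b₁, b₀] : Fin 2 → X) := by
      intro h
      exact hne (h.1.symm.trans hb₁)
    simp only [q, if_neg this]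

end switching

end Pool.Agent.H53.GC
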