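import Pool.Agent.H58.SF.MG
import Pool.Agent.H53.RG.Defs

/-!
# Structures with types of pairs over a free Ramsey structure: definitions
-/

set_option autoImplicit false

namespace Pool.Agent.H53.GC

open Pool.Agent.H68.BP Pool.Agent.H58.SF

/-! ### Structures whose symbols and positions are indexed by finite types -/

section numbered

/-- The signature with the symbols `S` and the positions `Ar s` of the symbol `s`. -/
noncomputable def sigOf (S : Type) (Ar : S → Type) [Finite S] : Sig :=
  ⟨Nat.card S, fun l => Nat.card (Ar ((Finite.equivFin S).symm l))⟩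

/-- The structure with the relations `R s`. -/
noncomputable def strOn {S : Type} {Ar : S → Type} [Finite S] [∀ s, Finite (Ar s)] {Y : Type}
    (R : (s : S) → (Ar s → Y) → Prop) : Str (sigOf S Ar) Y :=
  fun l x => R ((Finite.equivFin S).symm l)
    (fun p => x (Finite.equivFin (Ar ((Finite.equivFin S).symm l)) p))

end numbered

/-! ### Coloured linear orders -/

section colour

variable {V X : Type} [LinearOrder V]

/-- `c` assigns to each pair its type: the types `c x x` and `c y y` of the two vertices are
determined by `c x y` (they are `L (c x y)` and `Rt (c x y)`), and each element of `X` is a type. -/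
structure Typed (c : V → V → X) (L Rt : X → X) : Prop where
  left : ∀ x y, c x x = L (c x y)
  right : ∀ x y, c y y = Rt (c x y)
  surj : ∀ t, ∃ x y, c x y = t

/-- The coloured linear order `(V, c)` is universal; here `fr s t` is the free colour of pairs of
vertices of types `s` and `t`: every finite linear order `0 < 1 < … < n - 1` with colours `d i j`
for `i ≤ j` embeds into `(V, c)` provided that every set of at most `M` of its elements without free
pairs is realized in `V` (in some order). -/
def Universal (c : V → V → X) (fr : X → X → X) (M : ℕ) : Prop :=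
  ∀ (n : ℕ) (d : Fin n → Fin n → X),
    (∀ (m : ℕ) (s : Fin m → Fin n), m ≤ M → StrictMono s →
      (∀ i j, i < j → d (s i) (s j) ≠ fr (d (s i) (s i)) (d (s j) (s j))) →
      ∃ v : Fin m → V, ∀ i j, i ≤ j → c (v i) (v j) = d (s i) (s j)) →
    ∃ f : Fin n → V, StrictMono f ∧ ∀ i j, i ≤ j → c (f i) (f j) = d i j

/-- The tuples `x` and `y` have the same type in `(V, <, c)`. -/
def SameType (c : V → V → X) {I : Type} (x y : I → V) : Prop :=
  ∀ i j, (x i < x j ↔ y i < y j) ∧ (x i ≤ x j → c (x i) (x j) = c (y i) (y j))

/-- `(V, <, c)` is Ramsey: for each colouring of the `n`-tuples with finitely many colours and each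
finite set `K` there is a self-embedding `g` such that the colour of `g x` depends only on the type
of `x`, for the tuples `x` of elements of `K`. -/
def RamseyTypes (c : V → V → X) : Prop :=
  ∀ (n k : ℕ) (K : Finset V) (χ : (Fin n → V) → Fin k), ∃ g : V → V, StrictMono g ∧
    (∀ x y, x ≤ y → c (g x) (g y) = c x y) ∧
    ∀ x y : Fin n → V, (∀ i, x i ∈ K) → (∀ i, y i ∈ K) → SameType c x y →
      χ (fun i => g (x i)) = χ (fun i => g (y i))

variable {σ : Sig}

/-- The relations of `𝔸` are closed under splitting of vertices: if `x` is in a relation and `y` has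
the same types of pairs `y a ≤ y b`, and `y a = y b` only if `x a = x b`, then `y` is in the
relation. (This is true if each relation is a union of types of injective tuples.) -/
def SplitClosed (𝔸 : Str σ V) (c : V → V → X) : Prop :=
  ∀ (l : Fin σ.m) (x y : Fin (σ.ar l) → V), 𝔸 l x →
    (∀ a b, y a ≤ y b → c (y a) (y b) = c (x a) (x b)) → (∀ a b, y a = y b → x a = x b) → 𝔸 l y

end colour

/-! ### The finite template -/

section template

variable {V X : Type} {σ : Sig}

/-- The arities of the relations of `𝔸` and of the full relation of arity `M`. -/
def arP (σ : Sig) (M : ℕ) : Option (Fin σ.m) → ℕ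
  | none => M
  | some l => σ.ar l

/-- The relations of `𝔸` and the full relation of arity `M`. -/
def relP (𝔸 : Str σ V) (M : ℕ) : (s : Option (Fin σ.m)) → (Fin (arP σ M s) → V) → Prop
  | none => fun _ => True
  | some l => 𝔸 l

/-- the pairs `(i, j)` with `i ≤ j` -/
abbrev Prs (k : ℕ) : Type := {e : Fin k × Fin k // e.1 ≤ e.2}

/-- The patterns of types of pairs of the tuples in `R`, where the entries of the tuples are put
into the order given by `τ` (entries `a`, `b` with `τ a = τ b` have to be equal). -/
def Pat (c : V → V → X) {m k : ℕ} (R : (Fin m → V) → Prop) (τ : Fin m → Fin k)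
    (p : Prs k → X) : Prop :=
  ∃ x : Fin m → V, R x ∧ (∀ a b, τ a = τ b → x a = x b) ∧
    ∀ a b, (h : τ a ≤ τ b) → c (x a) (x b) = p ⟨(τ a, τ b), h⟩

/-- The symbols of the finite template: a relation symbol of `𝔸` (or the full relation of arity
`M`) with arity `m` and a map from `Fin m` to itself. -/
abbrev Sym (σ : Sig) (M : ℕ) : Type :=
  Σ s : Option (Fin σ.m), (Fin (arP σ M s) → Fin (arP σ M s))

/-- The finite template of `𝔸`. Its domain consists of the types of vertices (the elements of `X`
with the mark `true`) and the types of pairs (the elements of `X` with the mark `false`). For each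
relation of `𝔸` of arity `m` (and for the full relation of arity `M`) and each `τ : Fin m → Fin m`
it has a relation of arity `m ^ 2`, which consists of the patterns of the types of vertices and of
ascending pairs of the tuples of this relation, put into the order given by `τ`. -/
noncomputable def template (𝔸 : Str σ V) (M : ℕ) (c : V → V → X) :
    Str (sigOf (Sym σ M) (fun s => Fin (arP σ M s.1) × Fin (arP σ M s.1))) (X × Bool) :=
  strOn fun s q => ∃ x : Fin (arP σ M s.1) → V, relP 𝔸 M s.1 x ∧
    (∀ a b, s.2 a = s.2 b → x a = x b) ∧
    ∀ a b, s.2 a ≤ s.2 b → q (s.2 a, s.2 b) = (c (x a) (x b), decide (s.2 a = s.2 b))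

end template

end Pool.Agent.H53.GC
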